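import Mathlib
import Pool.Agent.H65.CM.Mix
import Pool.Graph.R_seed8.TH170.FT.MTDefs
import Pool.Graph.R_seed8.H204R3.GP.MT
import Pool.Graph.R_seed8.H204R3.GP.Neat
import Pool.Graph.R_seed8.Y137.MV.Criteria

/-!
# The Mumford-Tate conjecture for abelian varieties whose reduction at one place has factors of two
kinds: Galois Frobenius fields with reduced odd group algebra, and prime dimensions

Let `A` be an abelian variety over a finitely generated field of characteristic zero, of any
dimension and with arbitrary endomorphisms.  Suppose that `A` has good reduction at ONE closed
point `v` (with residue field of `p ^ a` elements) of a model, such that the characteristic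
polynomial of the Frobenius element is the product of the minimal polynomials of numbers `π i`
which generate CM fields `F i`, `π i * conj (π i) = p ^ a = q`. The factors are of two kinds (`R` is
the set of the indices of the factors of the first kind, `IsMixedFamily`):

* `i ∈ R`: `F i` is Galois over `ℚ`, the odd part of the rational group algebra of its Galois group
  contains no `x ≠ 0` with `x ^ 2 = 0` (`OddReduced`), and `π i` has no short relation (`NoShort`): for a
  nonempty set `S` of complex embeddings of `F i` which contains at most one of each pair of
  conjugate embeddings no positive power of `∏_{φ ∈ S} φ(π i) ^ 2` is the same power of `q ^ |S|`.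
  By the second part of the theorem the abelian CM fields and the Galois CM fields with an abelian
  group `B` of automorphisms outside which all squares are the complex conjugation (quaternion,
  dicyclic and generalized dicyclic groups) satisfy the first condition. The dimension of the factor is
  arbitrary, and there are no conditions on the slopes;
* `i ∉ R`: `π i` is simple in the sense of the library (`IsSimpleWeil`): it is not supersingular, and
  either the odd functions on the embeddings of `F i` are irreducible, or the degree of `F i` is `2 g` for
  an odd prime number `g`, all powers of `π i` generate `F i` and there is no Weil relation (for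
  instance `π i` is ordinary).

Different fields of the first kind have no CM field in common (`RealIntersection`); different fields
of the second kind have different degrees or normal closures and no imaginary quadratic field in
common (`IsDifferent`); and a field of the second kind has no embedding into a field of the first kind and
no imaginary quadratic field in common with it.

Then the Mumford-Tate conjecture holds for all powers of `A`: the spaces spanned by Hodge classes
and by Tate classes agree, for all primes `ℓ` not divisible by `v`; more precisely all Tate classes
are linear combinations of products of Hodge classes of degree two (`MumfordTateStrong`).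

In the Lean statement `per : W → T` is the map from the rational homology of `A(ℂ)` to its tangent
space, `V` is the rational Tate module with the action `ρ` of the Galois group, `comp` is the
comparison map, `ω₀` is a polarization, `ω` the corresponding Weil pairing, `χ` the cyclotomic
character (`IsRealization`; the theorems of Faltings on semisimplicity and on endomorphisms are among
these data), and `HasFrobenius` is the condition on the Frobenius element at `v`.

The library results of this kind suppose flips or pair transitivity (MixedFrobeniusMumfordTate), degrees
which are powers of two with independent discriminants (DiscriminantFrobeniusMumfordTate), or prime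
dimensions; the first kind of factors is new, for instance all simple abelian varieties with a
dicyclic CM field.
-/

set_option autoImplicit false

namespace Pool.Agent.Results.MP_6c781a_ag.TwoKindsMumfordTate

open NumberField Module IntermediateField Pool.Agent.H204R3.GP Pool.Agent.TH170
  Pool.Agent.Y137.MV Pool.Agent.H65.CM

/-- **The Mumford-Tate conjecture for abelian varieties whose reduction at one place has factors of the
two kinds.** -/
theorem result :
    (∀ (ℓ p : ℕ) [Fact ℓ.Prime] [Fact p.Prime] (a : ℕ), 0 < a → ∀ (I : Type) [Fintype I] (F : I → Type)
      [∀ i, Field (F i)] [∀ i, NumberField (F i)] [∀ i, IsCMField (F i)] (π : ∀ i, F i),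
      (∀ i, ℚ⟮π i⟯ = ⊤) → (∀ i, π i * IsCMField.complexConj (F i) (π i) = (p : F i) ^ a) →
      ∀ R : Set I, IsMixedFamily p a R F π →
      ∀ (W T V Γ : Type) [AddCommGroup W] [Module ℚ W] [AddCommGroup T] [Module ℂ T]
        [AddCommGroup V] [Module ℚ_[ℓ] V] [FiniteDimensional ℚ_[ℓ] V] [Group Γ]
        (per : W →+ T) (ω₀ : W →ₗ[ℚ] W →ₗ[ℚ] ℚ) (comp : W →+ V)
        (ρ : Representation ℚ_[ℓ] Γ V) (χ : Γ →* ℚ_[ℓ]) (ω : V →ₗ[ℚ_[ℓ]] V →ₗ[ℚ_[ℓ]] ℚ_[ℓ]),
        FT.IsRealization per ω₀ comp ρ χ ω → FT.HasFrobenius ρ χ p a π →
          MumfordTateStrong per comp ρ χ) ∧
    (∀ (K : Type) [Field K] [NumberField K], DicyclicType K → OddReduced K) := by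
  refine ⟨?_, fun K _ _ h => OddReduced.of_dicyclic h⟩
  intro ℓ p _ _ a ha I _ F _ _ _ π hgen hweil R hR W T V Γ _ _ _ _ _ _ _ _ per ω₀ comp ρ χ ω
    hreal hFr
  obtain ⟨γ, hχ, hγ⟩ := hFr
  have hss' : ∀ Δ : Subgroup Γ, Δ.FiniteIndex → SemiUnder (ρ '' (Δ : Set Γ)) := by
    intro Δ hΔ U hU
    obtain ⟨U', h1, h2⟩ := hreal.semisimple Δ hΔ U (fun s hs u hu => hU _ ⟨s, hs, rfl⟩ u hu)
    refine ⟨U', ?_, h2⟩
    rintro _ ⟨s, hs, rfl⟩ u hu
    exact h1 s hs u hu
  have hnd' : ∀ u, (∀ v, ω u v = 0) → u = 0 := by
    intro u hu
    apply hreal.nondegenerate
    intro v
    have h1 := hreal.alternating (u + v)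
    simp only [map_add, LinearMap.add_apply, hreal.alternating, hu, zero_add, add_zero] at h1
    exact h1
  obtain ⟨L, hL1, hL2, j, h⟩ := Pool.Agent.H204R3.CM.exists_galois F
  have hneat := neat_of_angle (L := L) j (angle_of_mixed ha hweil hR)
  exact mumfordTate_of per comp ρ χ ω hnd' hreal.equivariant ω₀ hreal.hodge hreal.compatible
    hreal.faltings fun m φ hφ => tate_of_neat ha hgen hweil j h hneat ρ χ ω hreal.alternating
      hreal.nondegenerate hreal.equivariant hss' γ hχ hγ φ hφ

end Pool.Agent.Results.MP_6c781a_ag.TwoKindsMumfordTate
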